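import Mathlib
import Pool.Agent.H763Z.LD.Defs
import Pool.Agent.H763Z.LD.Asymp

open Pool.Agent.H763Z.LD

theorem Pool.Agent.Results.MP_4a087e_lc.ALowerBound.result :
    (∃ c : ℝ, 0 < c ∧ ∃ N : ℕ, ∀ n ≥ N,
      c * Real.log n ^ (3 / 2 : ℝ) / Real.log (Real.log n) ^ (7 / 2 : ℝ) ≤ (D n : ℝ)) ∧
    (∀ C : ℝ, ∃ N : ℕ, ∀ n ≥ N, ∃ G : SimpleGraph (Fin n), ∀ (π : Fin n → ℝ) (d : ℕ),
      IsDiamOrdering G π d → C * Real.log n < d) :=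
  Pool.Agent.H763Z.LD.main
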